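import Pool.Agent.helper68.BD2.Spec

/-!
# Project BD2 (MP_4467b5_nt), row CLW: class two (helper30; port of helper27/BEY/CLT.lean)
-/

set_option autoImplicit false

open Complex MeasureTheory

namespace Pool.Agent.BEY

open Pool.Agent.helper84.DM Pool.Agent.helper78.ED Pool.Agent.DH Pool.Agent.LDH

theorem CLW_log (A r : ℝ) (hr : 0 < r) : ∃ T₀ : ℝ, ∀ T : ℝ, T₀ ≤ T → A * Real.log T ≤ T ^ r := by
  have h1 := (isLittleO_log_rpow_atTop hr).def (c := 1 / (|A| + 1)) (by positivity)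
  obtain ⟨T₀, hT₀⟩ := Filter.eventually_atTop.1 h1
  refine ⟨max T₀ 1, fun T hT => ?_⟩
  have h2 := hT₀ T ((le_max_left _ _).trans hT)
  have hT1 : 1 ≤ T := (le_max_right _ _).trans hT
  have h3 : 0 ≤ Real.log T := Real.log_nonneg hT1
  have h4 : 0 ≤ T ^ r := Real.rpow_nonneg (by linarith) r
  rw [Real.norm_of_nonneg h3, Real.norm_of_nonneg h4] at h2
  have h5 : A ≤ |A| + 1 := (le_abs_self A).trans (by linarith)
  have h6 : 0 < |A| + 1 := by positivity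
  calc A * Real.log T ≤ (|A| + 1) * Real.log T := mul_le_mul_of_nonneg_right h5 h3
    _ ≤ (|A| + 1) * (1 / (|A| + 1) * T ^ r) := mul_le_mul_of_nonneg_left h2 h6.le
    _ = T ^ r := by field_simp

theorem CLW_L {T : ℝ} (hT : 3 ≤ T) : 1 ≤ Real.log T := by
  rw [Real.le_log_iff_exp_le (by linarith)]
  have := Real.exp_one_lt_d9
  linarith

theorem CLW_J {T Y : ℝ} {J : ℕ} (hT : 3 ≤ T) (hY : 1 ≤ Y) (h : (4 / 3 : ℝ) ^ J * Y ≤ 2 * T ^ 2) :
    (J : ℝ) ≤ 11 * Real.log T := by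
  have hL := CLW_L hT
  have h1 : (4 / 3 : ℝ) ^ J ≤ 2 * T ^ 2 := by
    have h2 : (0 : ℝ) < (4 / 3) ^ J := by positivity
    calc (4 / 3 : ℝ) ^ J = (4 / 3) ^ J * 1 := by ring
      _ ≤ (4 / 3) ^ J * Y := mul_le_mul_of_nonneg_left hY h2.le
      _ ≤ 2 * T ^ 2 := h
  have h2 := Real.log_le_log (by positivity) h1
  rw [Real.log_pow, Real.log_mul (by norm_num) (by positivity), Real.log_pow] at h2
  push_cast at h2
  have h4 := Real.log_two_lt_d9
  have h5 : (1 / 4 : ℝ) ≤ Real.log (4 / 3) := by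
    have h6 : Real.log (3 / 4) ≤ 3 / 4 - 1 := Real.log_le_sub_one_of_pos (by norm_num)
    have h7 : Real.log (4 / 3) = -Real.log (3 / 4) := by
      rw [← Real.log_inv]
      norm_num
    rw [h7]
    linarith
  have h6 : (J : ℝ) * (1 / 4) ≤ J * Real.log (4 / 3) := mul_le_mul_of_nonneg_left h5 (Nat.cast_nonneg _)
  linarith

theorem CLW_big {C₁ T N : ℝ} {r : ℝ} (hC : 0 < C₁) (hT : 3 ≤ T) (hN1 : 1 ≤ N) (hN : N ≤ 2 * T ^ 2) (hr : 3 / 4 ≤ r) (hr2 : r ≤ 1) :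
    C₁ * (N ^ (1 - r) / T) ≤ 2 * C₁ * T ^ (-(1 / 2) : ℝ) := by
  have hT0 : 0 < T := by linarith
  have h1 : N ^ (1 - r) ≤ 2 * T ^ (1 / 2 : ℝ) := by
    calc N ^ (1 - r) ≤ N ^ (1 / 4 : ℝ) := Real.rpow_le_rpow_of_exponent_le hN1 (by linarith)
      _ ≤ (2 * T ^ 2) ^ (1 / 4 : ℝ) := Real.rpow_le_rpow (by linarith) hN (by norm_num)
      _ = (2 : ℝ) ^ (1 / 4 : ℝ) * T ^ (1 / 2 : ℝ) := by
          rw [Real.mul_rpow (by norm_num) (by positivity), ← Real.rpow_natCast T, ← Real.rpow_mul hT0.le]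
          refine congrArg (fun x => (2 : ℝ) ^ (1 / 4 : ℝ) * T ^ x) ?_
          norm_num
      _ ≤ 2 * T ^ (1 / 2 : ℝ) := by
          refine mul_le_mul_of_nonneg_right ?_ (Real.rpow_nonneg hT0.le _)
          calc (2 : ℝ) ^ (1 / 4 : ℝ) ≤ (2 : ℝ) ^ (1 : ℝ) := Real.rpow_le_rpow_of_exponent_le (by norm_num) (by norm_num)
            _ = 2 := Real.rpow_one 2
  have h2 : T ^ (-(1 / 2) : ℝ) = T ^ (1 / 2 : ℝ) / T := by
    rw [eq_div_iff hT0.ne']
    nth_rewrite 2 [← Real.rpow_one T]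
    rw [← Real.rpow_add hT0]
    refine congrArg (fun x => T ^ x) ?_
    norm_num
  rw [h2]
  calc C₁ * (N ^ (1 - r) / T) ≤ C₁ * ((2 * T ^ (1 / 2 : ℝ)) / T) :=
        mul_le_mul_of_nonneg_left (div_le_div_of_nonneg_right h1 hT0.le) hC.le
    _ = 2 * C₁ * (T ^ (1 / 2 : ℝ) / T) := by ring

theorem CLW_Sz (w : ℝ → ℝ) (K M t : ℝ) : Sz (fun x => w x / K) M t = Sz w M t / (K : ℂ) := by
  unfold Sz
  rw [Finset.sum_div]
  refine Finset.sum_congr rfl fun n _ => ?_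
  push_cast
  ring

theorem CLW (hLVZ : LVZ_stmt) (hWCB : WCB_stmt) (hKLS : KLS_stmt) (hTAS : TAS_stmt) (hNUD : NUD_stmt) : CLW_stmt := by
  classical
  intro ε hε
  obtain ⟨ε₁, δ₁, hε₁, hδ₁, hδ₁', hNU⟩ := hNUD ε hε
  obtain ⟨C₁, hC₁, hK⟩ := hKLS
  obtain ⟨K, hK1, hW1⟩ := hWCB
  obtain ⟨CL, hCL, hL⟩ := hLVZ ε₁ hε₁
  refine ⟨δ₁, hδ₁, ?_⟩
  intro δ hδ hδ'
  have hδ16 : δ ≤ 1 / 16 := hδ'.trans hδ₁'
  obtain ⟨CN, TN, hCN, hNU'⟩ := hNU δ K CL hδ hδ' hK1 hCL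
  obtain ⟨T₁, hT₁⟩ := hTAS (2 * δ) (by linarith) (by linarith)
  obtain ⟨T₂, hT₂⟩ := CLW_log 88 δ hδ
  obtain ⟨T₃, hT₃⟩ := CLW_log (176 * C₁) (1 / 4) (by norm_num)
  obtain ⟨T₄, hT₄⟩ := CLW_log 17 (ε / 4) (by linarith)
  refine ⟨CN, max (max (max 3 T₁) (max T₂ T₃)) (max T₄ TN), hCN, ?_⟩
  intro T σ A hT hσ1 hσ2 hOk J hJ2 W hW hsep hbig
  have hA1 : 3 / 2 ≤ A := hOk.1
  have hTa := (le_max_left _ _).trans hT
  have hTb := (le_max_right _ _).trans hT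
  have hT3 : 3 ≤ T := ((le_max_left _ _).trans (le_max_left _ _)).trans hTa
  have hTT1 : T₁ ≤ T := ((le_max_right _ _).trans (le_max_left _ _)).trans hTa
  have hL2 := hT₂ T (((le_max_left _ _).trans (le_max_right _ _)).trans hTa)
  have hL3 := hT₃ T (((le_max_right _ _).trans (le_max_right _ _)).trans hTa)
  have hL4 := hT₄ T ((le_max_left _ _).trans hTb)
  have hTTN : TN ≤ T := (le_max_right _ _).trans hTb
  have hT0 : 0 < T := by linarith
  have hT1 : 1 ≤ T := by linarith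
  have hLL := CLW_L hT3
  set Y : ℝ := T ^ (A / 4) with hYd
  have hY1 : 1 ≤ Y := Real.one_le_rpow hT1 (by linarith)
  have hJ := CLW_J hT3 hY1 hJ2
  -- the blocks
  have hMge : ∀ i : ℕ, Y ≤ (4 / 3 : ℝ) ^ i * Y := fun i =>
    le_mul_of_one_le_left (by linarith) (one_le_pow₀ (by norm_num))
  have hMle : ∀ i ∈ Finset.range J, (4 / 3 : ℝ) ^ i * Y ≤ 2 * T ^ 2 := by
    intro i hi
    refine le_trans ?_ hJ2
    exact mul_le_mul_of_nonneg_right (pow_le_pow_right₀ (by norm_num) (Finset.mem_range.1 hi).le) (by linarith)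
  -- every zero is detected by a short block
  have hdet : ∀ ρ ∈ W, ∃ i ∈ Finset.range J, (4 / 3 : ℝ) ^ i * Y < T ∧
      T ^ (-(2 * δ)) ≤ ‖Ps ((4 / 3 : ℝ) ^ i * Y) ρ‖ := by
    intro ρ hρ
    by_contra hcon
    push Not at hcon
    obtain ⟨w1, w2, w3, w4⟩ := hW ρ hρ
    have h1 : ∀ i ∈ Finset.range J, ‖Ps ((4 / 3 : ℝ) ^ i * Y) ρ‖ ≤
        T ^ (-(2 * δ)) + 2 * C₁ * T ^ (-(1 / 2) : ℝ) := by
      intro i hi
      have p1 : 0 ≤ T ^ (-(2 * δ)) := Real.rpow_nonneg hT0.le _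
      have p2 : 0 ≤ 2 * C₁ * T ^ (-(1 / 2) : ℝ) := mul_nonneg (by positivity) (Real.rpow_nonneg hT0.le _)
      rcases lt_or_ge ((4 / 3 : ℝ) ^ i * Y) T with h2 | h2
      · have h3 := hcon i hi h2
        linarith
      · have h3 := hK T ((4 / 3 : ℝ) ^ i * Y) ρ hT1 h2 (by linarith) w2 w3 w4
        have h4 := CLW_big hC₁ hT3 (N := (4 / 3 : ℝ) ^ i * Y) (r := ρ.re) (hT1.trans h2) (hMle i hi) (by linarith) w2
        linarith
    have h2 : ∑ i ∈ Finset.range J, ‖Ps ((4 / 3 : ℝ) ^ i * Y) ρ‖ ≤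
        J * (T ^ (-(2 * δ)) + 2 * C₁ * T ^ (-(1 / 2) : ℝ)) := by
      refine (Finset.sum_le_sum h1).trans ?_
      rw [Finset.sum_const, Finset.card_range, nsmul_eq_mul]
    have h3 := hbig ρ hρ
    have q0 : 0 < T ^ δ := Real.rpow_pos_of_pos hT0 _
    have h4 : T ^ δ * ∑ i ∈ Finset.range J, ‖Ps ((4 / 3 : ℝ) ^ i * Y) ρ‖ ≤
        T ^ δ * ((11 * Real.log T) * (T ^ (-(2 * δ)) + 2 * C₁ * T ^ (-(1 / 2) : ℝ))) := by
      refine mul_le_mul_of_nonneg_left (h2.trans (mul_le_mul_of_nonneg_right hJ ?_)) q0.le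
      exact add_nonneg (Real.rpow_nonneg hT0.le _) (mul_nonneg (by positivity) (Real.rpow_nonneg hT0.le _))
    have e1 : T ^ δ * T ^ (-(2 * δ)) = T ^ (-δ) := by
      rw [← Real.rpow_add hT0]
      refine congrArg (fun x => T ^ x) ?_
      ring
    have e2 : T ^ δ * T ^ (-(1 / 2) : ℝ) = T ^ (δ - 1 / 2) := by
      rw [← Real.rpow_add hT0]
      refine congrArg (fun x => T ^ x) ?_
      ring
    have h5 : T ^ δ * ((11 * Real.log T) * (T ^ (-(2 * δ)) + 2 * C₁ * T ^ (-(1 / 2) : ℝ))) =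
        (1 / 8) * ((88 * Real.log T) * T ^ (-δ)) + (1 / 8) * ((176 * C₁ * Real.log T) * T ^ (δ - 1 / 2)) := by
      rw [← e1, ← e2]
      ring
    have h6 : (88 * Real.log T) * T ^ (-δ) ≤ 1 := by
      calc (88 * Real.log T) * T ^ (-δ) ≤ T ^ δ * T ^ (-δ) := mul_le_mul_of_nonneg_right hL2 (Real.rpow_nonneg hT0.le _)
        _ = 1 := by rw [← Real.rpow_add hT0, add_neg_cancel, Real.rpow_zero]
    have h7 : (176 * C₁ * Real.log T) * T ^ (δ - 1 / 2) < 1 := by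
      calc (176 * C₁ * Real.log T) * T ^ (δ - 1 / 2) ≤ T ^ (1 / 4 : ℝ) * T ^ (δ - 1 / 2) :=
            mul_le_mul_of_nonneg_right hL3 (Real.rpow_nonneg hT0.le _)
        _ = T ^ (1 / 4 + (δ - 1 / 2)) := (Real.rpow_add hT0 _ _).symm
        _ < 1 := Real.rpow_lt_one_of_one_lt_of_neg (by linarith) (by linarith)
    rw [h5] at h4
    linarith
  -- the classes
  set P : Finset (ℕ × ℕ) := Finset.range J ×ˢ Finset.range (⌊16 * Real.log T⌋₊ + 1) with hP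
  set V : ℕ × ℕ → Finset ℂ := fun q => W.filter fun ρ => (4 / 3 : ℝ) ^ q.1 * Y < T ∧
    ((4 / 3 : ℝ) ^ q.1 * Y) ^ σ * T ^ (-(2 * (2 * δ))) ≤ ‖Sz (wj σ q.2) ((4 / 3 : ℝ) ^ q.1 * Y) ρ.im‖ with hV
  have hcov : W ⊆ P.biUnion V := by
    intro ρ hρ
    obtain ⟨i, hi, h1, h2⟩ := hdet ρ hρ
    obtain ⟨w1, w2, w3, w4⟩ := hW ρ hρ
    obtain ⟨j, hj, h3⟩ := hT₁ T hTT1 σ ((4 / 3 : ℝ) ^ i * Y) ρ (by linarith) (hY1.trans (hMge i)) (by nlinarith)
      w1 w2 h2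
    refine Finset.mem_biUnion.2 ⟨(i, j), Finset.mem_product.2 ⟨hi, hj⟩, ?_⟩
    exact Finset.mem_filter.2 ⟨hρ, h1, h3⟩
  have hcardV : ∀ q ∈ P, ((V q).card : ℝ) ≤ CN * T ^ (ε / 2) * T ^ (A * (1 - σ)) := by
    intro q hq
    have hVW : V q ⊆ W := Finset.filter_subset _ _
    rcases (V q).eq_empty_or_nonempty with h0 | ⟨ρ₀, hρ₀⟩
    · rw [h0, Finset.card_empty, Nat.cast_zero]
      have p1 : 0 ≤ T ^ (ε / 2) := Real.rpow_nonneg hT0.le _
      have p2 : 0 ≤ T ^ (A * (1 - σ)) := Real.rpow_nonneg hT0.le _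
      positivity
    · have hMT : (4 / 3 : ℝ) ^ q.1 * Y < T := (Finset.mem_filter.1 hρ₀).2.1
      set M : ℝ := (4 / 3 : ℝ) ^ q.1 * Y with hM
      have hYM : Y ≤ M := hMge q.1
      have hM1 : 1 ≤ M := hY1.trans hYM
      have hM0 : 0 < M := by linarith
      have hinj : Set.InjOn Complex.im (V q : Set ℂ) := by
        intro ρ hρ ρ' hρ' he
        by_contra hne
        have h1 := hsep ρ (hVW hρ) ρ' (hVW hρ') hne
        rw [he, sub_self, abs_zero] at h1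
        linarith
      obtain ⟨hV1, hV2⟩ := hNU' T σ A M hTTN hσ1 hσ2 hOk hYM hMT.le (M ^ (σ - 1 / 2) * T ^ (-(4 * δ)) / K) rfl
      have h1 := hL T M (M ^ (σ - 1 / 2) * T ^ (-(4 * δ)) / K) (fun x => wj σ q.2 x / K) ((V q).image Complex.im)
        hT1 hM1 hMT.le (hW1 σ q.2 (by linarith) hσ2) hV1
        (by
          intro t ht
          obtain ⟨ρ, hρ, rfl⟩ := Finset.mem_image.1 ht
          exact ⟨(hW ρ (hVW hρ)).2.2.1, (hW ρ (hVW hρ)).2.2.2⟩)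
        (by
          intro s hs s' hs' hne
          obtain ⟨ρ, hρ, rfl⟩ := Finset.mem_image.1 hs
          obtain ⟨ρ', hρ', rfl⟩ := Finset.mem_image.1 hs'
          exact hsep ρ (hVW hρ) ρ' (hVW hρ') fun h => hne (by rw [h]))
        (by
          intro t ht
          obtain ⟨ρ, hρ, rfl⟩ := Finset.mem_image.1 ht
          have h2 := (Finset.mem_filter.1 hρ).2.2
          have hK0 : 0 < K := by linarith
          rw [CLW_Sz, norm_div, Complex.norm_real, Real.norm_of_nonneg hK0.le]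
          have h3 : M ^ (σ - 1 / 2) * T ^ (-(4 * δ)) / K * M ^ (1 / 2 : ℝ) = M ^ σ * T ^ (-(2 * (2 * δ))) / K := by
            have e1 : M ^ (σ - 1 / 2) * M ^ (1 / 2 : ℝ) = M ^ σ := by
              rw [← Real.rpow_add hM0]
              refine congrArg (fun x => M ^ x) ?_
              ring
            have e2 : T ^ (-(4 * δ)) = T ^ (-(2 * (2 * δ))) := by
              refine congrArg (fun x => T ^ x) ?_
              ring
            rw [← e1, ← e2]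
            ring
          rw [h3]
          exact div_le_div_of_nonneg_right h2 hK0.le)
      rw [Finset.card_image_of_injOn hinj] at h1
      exact h1.trans hV2
  have hcard : (W.card : ℝ) ≤ P.card * (CN * T ^ (ε / 2) * T ^ (A * (1 - σ))) := by
    have h1 : (W.card : ℝ) ≤ ∑ q ∈ P, ((V q).card : ℝ) := by
      have h2 : W.card ≤ ∑ q ∈ P, (V q).card := (Finset.card_le_card hcov).trans Finset.card_biUnion_le
      exact_mod_cast h2
    refine h1.trans ((Finset.sum_le_sum hcardV).trans ?_)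
    rw [Finset.sum_const, nsmul_eq_mul]
  have hPc : (P.card : ℝ) ≤ T ^ (ε / 2) := by
    rw [hP, Finset.card_product, Finset.card_range, Finset.card_range]
    push_cast
    have h1 : (⌊16 * Real.log T⌋₊ : ℝ) ≤ 16 * Real.log T := Nat.floor_le (by linarith)
    have h2 : T ^ (ε / 2) = T ^ (ε / 4) * T ^ (ε / 4) := by
      rw [← Real.rpow_add hT0]
      refine congrArg (fun x => T ^ x) ?_
      ring
    rw [h2]
    calc (J : ℝ) * ((⌊16 * Real.log T⌋₊ : ℝ) + 1) ≤ (17 * Real.log T) * (17 * Real.log T) := by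
          refine mul_le_mul (by linarith) (by linarith) (by positivity) (by linarith)
      _ ≤ T ^ (ε / 4) * T ^ (ε / 4) := mul_le_mul hL4 hL4 (by linarith) (Real.rpow_nonneg hT0.le _)
  have hfin : (P.card : ℝ) * (CN * T ^ (ε / 2) * T ^ (A * (1 - σ))) ≤
      CN * T ^ ε * T ^ (A * (1 - σ)) := by
    have p2 : 0 ≤ T ^ (A * (1 - σ)) := Real.rpow_nonneg hT0.le _
    have p1 : 0 ≤ T ^ (ε / 2) := Real.rpow_nonneg hT0.le _
    have e1 : T ^ ε = T ^ (ε / 2) * T ^ (ε / 2) := by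
      rw [← Real.rpow_add hT0]
      refine congrArg (fun x => T ^ x) ?_
      ring
    calc (P.card : ℝ) * (CN * T ^ (ε / 2) * T ^ (A * (1 - σ))) ≤
          T ^ (ε / 2) * (CN * T ^ (ε / 2) * T ^ (A * (1 - σ))) :=
          mul_le_mul_of_nonneg_right hPc (by positivity)
      _ = CN * T ^ ε * T ^ (A * (1 - σ)) := by rw [e1]; ring
  exact hcard.trans hfin

end Pool.Agent.BEY
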